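import Pool.Agent.H13.EDM.Targets
import Pool.Agent.H4.TX.KNX
import Pool.Agent.H55.TD.AXF

/-!
# Row HKN of the board edm: the height inequality
-/

set_option autoImplicit false

open MvPolynomial
open Pool.Agent.H12.ZD (pmap)
open Pool.Agent.H18.HIT
open Pool.Agent.H8.ZA (HFam Const NA)
open Pool.Agent.H8.TD (lc dg Wsp)
open Pool.Agent.H8.TX (hn)
open Pool.Agent.H13.EDM

namespace Pool.Agent.H48.EDM

/-- algebraic elements over an algebraically closed field -/
theorem alg_range {K : Type} [Field K] [Algebra Qb K] {x : K} (hx : IsAlgebraic Qb x) :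
    ∃ c : Qb, algebraMap Qb K c = x := by
  have hi : IsIntegral Qb x := hx.isIntegral
  have h1 : (minpoly Qb x).degree = 1 :=
    IsAlgClosed.degree_eq_one_of_irreducible Qb (minpoly.irreducible hi)
  obtain ⟨c, hc⟩ := minpoly.mem_range_of_degree_eq_one Qb x h1
  exact ⟨c, hc⟩

/-- members of the systems belong to the spaces -/
theorem lc_mem {k κ C : Type} [Field k] [Field κ] [Field C] [Algebra k κ] [Algebra κ C]
    [Algebra k C] [IsScalarTower k κ C] {c : ℕ} (M : Fin c → C) (s : Fin c → k) (V : Submodule κ C)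
    (h : ∀ i, M i ∈ V) : lc s M ∈ V := by
  unfold lc
  refine Submodule.sum_mem _ fun i _ => ?_
  rw [← algebraMap_smul κ (s i) (M i)]
  exact V.smul_mem _ (h i)

/-- the numbers -/
theorem num_fin (e i n₁ l₁ Q t J Y : ℕ) (W : ℕ → ℕ) (H HA HB c' : ℝ) (m : ℕ) (ht : 1 ≤ t)
    (hH : 0 ≤ H) (hA : 0 ≤ HA) (hB : 0 ≤ HB)
    (hY : Y = ∑ j ∈ Finset.range (e + 1), e.choose j * n₁ ^ j * l₁ ^ (e - j) * W j)
    (h1 : t * (Q * n₁ ^ i * l₁ ^ (e + 1 - i)) ≤ 2 * (e + 1).factorial * Y * J)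
    (h2 : (J : ℝ) * H ≤ ((t * n₁ : ℕ) : ℝ) * HA + ((t * l₁ : ℕ) : ℝ) * HB + m * c') :
    (Q * n₁ ^ i * l₁ ^ (e + 1 - i) : ℝ) * H ≤ ((e + 1).factorial * 2 ^ (e + 1) : ℝ) *
      (∑ j ∈ Finset.range (e + 1), (n₁ : ℝ) ^ j * l₁ ^ (e - j) * W j) *
      (n₁ * HA + l₁ * HB) + m * (2 * (e + 1).factorial * Y * c' / t) := by
  have htp : (0 : ℝ) < t := by exact_mod_cast ht
  have h3 : (t : ℝ) * (Q * n₁ ^ i * l₁ ^ (e + 1 - i)) ≤ 2 * (e + 1).factorial * Y * J := by
    exact_mod_cast h1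
  have h4 : (Y : ℝ) ≤ 2 ^ e *
      ∑ j ∈ Finset.range (e + 1), (n₁ : ℝ) ^ j * l₁ ^ (e - j) * W j := by
    rw [hY]
    push_cast
    rw [Finset.mul_sum]
    refine Finset.sum_le_sum fun j _ => ?_
    have h5 : (e.choose j : ℝ) ≤ 2 ^ e := by exact_mod_cast Nat.choose_le_two_pow e j
    have h6 : (0 : ℝ) ≤ (n₁ : ℝ) ^ j * l₁ ^ (e - j) * W j := by positivity
    calc (e.choose j : ℝ) * n₁ ^ j * l₁ ^ (e - j) * W j
        = e.choose j * ((n₁ : ℝ) ^ j * l₁ ^ (e - j) * W j) := by ring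
      _ ≤ 2 ^ e * ((n₁ : ℝ) ^ j * l₁ ^ (e - j) * W j) := mul_le_mul_of_nonneg_right h5 h6
  set Z : ℝ := ∑ j ∈ Finset.range (e + 1), (n₁ : ℝ) ^ j * l₁ ^ (e - j) * W j with hZ
  set L : ℝ := (Q * n₁ ^ i * l₁ ^ (e + 1 - i) : ℝ) with hL
  set G : ℝ := 2 * (e + 1).factorial * Y with hG
  have hG0 : 0 ≤ G := by positivity
  have h7 : (t : ℝ) * (L * H) ≤ t * (G * (n₁ * HA + l₁ * HB) + m * (G * c' / t)) := by
    have e1 : (t : ℝ) * (m * (G * c' / t)) = G * (m * c') := by
      field_simp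
    calc (t : ℝ) * (L * H) = (t * L) * H := by ring
      _ ≤ (G * J) * H := mul_le_mul_of_nonneg_right h3 hH
      _ = G * (J * H) := by ring
      _ ≤ G * (((t * n₁ : ℕ) : ℝ) * HA + ((t * l₁ : ℕ) : ℝ) * HB + m * c') :=
        mul_le_mul_of_nonneg_left h2 hG0
      _ = t * (G * (n₁ * HA + l₁ * HB)) + G * (m * c') := by
        push_cast
        ring
      _ = _ := by linear_combination -e1
  have h8 := le_of_mul_le_mul_left h7 htp
  have h9 : G ≤ ((e + 1).factorial * 2 ^ (e + 1) : ℝ) * Z := by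
    calc G = 2 * (e + 1).factorial * Y := rfl
      _ ≤ 2 * (e + 1).factorial * (2 ^ e * Z) :=
        mul_le_mul_of_nonneg_left h4 (by positivity)
      _ = _ := by ring
  have h10 : G * (n₁ * HA + l₁ * HB) ≤
      ((e + 1).factorial * 2 ^ (e + 1) : ℝ) * Z * (n₁ * HA + l₁ * HB) :=
    mul_le_mul_of_nonneg_right h9 (by positivity)
  linarith only [h8, h10]

/-- everything belongs to the field generated by the products -/
theorem all_mem {k C : Type} [Field k] [Field C] [Algebra k C] (κ : IntermediateField k C)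
    (T U : Set C) (h : IntermediateField.adjoin k T = ⊤) (hTU : T ⊆ U) (x : C) :
    x ∈ IntermediateField.adjoin κ U := by
  have h1 : IntermediateField.adjoin k T ≤
      (IntermediateField.adjoin κ U).restrictScalars k := by
    rw [IntermediateField.adjoin_le_iff]
    intro y hy
    exact IntermediateField.subset_adjoin κ U (hTU hy)
  have h2 : x ∈ IntermediateField.adjoin k T := by
    rw [h]
    exact IntermediateField.mem_top
  exact h1 h2

/-- the upper bound for the dimensions over the field generated by one function -/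
theorem core (hADS : T_ADS) (hTRD : T_TRD) (hFGU : T_FGU) (hEXG : T_EXG)
    (hUPB : T_UPB) (hMLT : T_MLT) (hSPL : T_SPL) (k K : Type) [Field k] [CharZero k] [Field K]
    [Algebra k K] (e a b n₁ l₁ : ℕ) (W : ℕ → ℕ) (A : Fin a → K) (B : Fin b → K) (g : K)
    (htg : Transcendental k g) (htr : Algebra.trdeg k K = (e + 1 : ℕ))
    (htop : IntermediateField.adjoin k (Set.range A ∪ Set.range B) = ⊤)
    (hn₁ : 1 ≤ n₁) (hl₁ : 1 ≤ l₁)
    (hW : ∀ j ≤ e, ∀ (s : Fin j → Fin a → k) (t : Fin (e - j) → Fin b → k),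
      dg k (insert g (Set.range (fun r => lc (s r) A) ∪ Set.range fun r => lc (t r) B)) ≤ W j) :
    1 ≤ ∑ j ∈ Finset.range (e + 1), e.choose j * n₁ ^ j * l₁ ^ (e - j) * W j ∧
    ∃ c₁ : ℕ, ∀ t : ℕ, Module.finrank (IntermediateField.adjoin k {g})
      (Wsp (IntermediateField.adjoin k {g}) A B (t * n₁) (t * l₁)) ≤
      (∑ j ∈ Finset.range (e + 1), e.choose j * n₁ ^ j * l₁ ^ (e - j) * W j) * (t + c₁) ^ e := by
  have htr1 : Algebra.trdeg (IntermediateField.adjoin k {g}) K = e := by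
    have h1 := hTRD 1 e k K ![g] (algebraicIndependent_iff_transcendental.2 htg)
      (by rw [htr, Nat.add_comm])
    have h2 : Set.range ![g] = {g} := by
      ext y
      simp
    rw [h2] at h1
    exact h1
  have hFG : (⊤ : IntermediateField k K).FG := by
    rw [← htop]
    exact IntermediateField.fg_adjoin_of_finite ((Set.finite_range _).union (Set.finite_range _))
  have hFG1 := hFGU k K {g} hFG
  obtain ⟨c, M, hM1, hM2, hM3, hM4⟩ := hSPL a b n₁ l₁ K A B
  set Y : ℕ := ∑ j ∈ Finset.range (e + 1), e.choose j * n₁ ^ j * l₁ ^ (e - j) * W j with hY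
  have hads : ∀ T : Set K, dg (IntermediateField.adjoin k {g}) T = dg k (insert g T) :=
    fun T => hADS k K {g} T
  have hall : ∀ x : K, x ∈ IntermediateField.adjoin (IntermediateField.adjoin k {g})
      (Set.range M) := fun x =>
    all_mem (IntermediateField.adjoin k {g}) (Set.range A ∪ Set.range B) (Set.range M) htop
      (Set.union_subset (hM2 hn₁) (hM3 hl₁)) x
  have hM5 := fun t => hM4 (IntermediateField.adjoin k {g}) t
  clear hM4
  have hchar : CharZero (IntermediateField.adjoin k {g}) :=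
    charZero_of_injective_algebraMap (algebraMap k (IntermediateField.adjoin k {g})).injective
  have hmlt := fun (z : Fin e → K) => hMLT e a b n₁ l₁ W k (IntermediateField.adjoin k {g}) K
    A B z htr1 hFG1
  have hexg := hEXG 0 e c k (IntermediateField.adjoin k {g}) K (fun i => i.elim0) (fun _ => M)
    (by rw [Nat.zero_add]; exact htr1) hFG1
    (algebraicIndependent_empty_type_iff.2
      (algebraMap (IntermediateField.adjoin k {g}) K).injective)
  have hupb := hUPB e 0 c 0 Y k (IntermediateField.adjoin k {g}) K (Fin.elim0 : Fin 0 → K) M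
    htr1 hFG1
  have hmem : ∀ i, M i ∈ Wsp (IntermediateField.adjoin k {g}) A B n₁ l₁ := by
    intro i
    obtain ⟨α, β, h1, h2, h3⟩ := hM1 i
    exact Submodule.subset_span ⟨α, β, h1, h2, h3⟩
  have hYb : ∀ s : Fin e → Fin c → k, dg (IntermediateField.adjoin k {g})
      (Set.range fun i => lc (s i) M) ≤ Y := by
    intro s
    refine hmlt (fun i => lc (s i) M) ?_ ?_
    · intro j hj u v
      rw [hads]
      exact hW j hj u v
    · intro r
      exact lc_mem M (s r) _ hmem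
  have hMalg : Algebra.IsAlgebraic (IntermediateField.adjoin (IntermediateField.adjoin k {g})
      (Set.range M)) K :=
    ⟨fun x => isAlgebraic_algebraMap (⟨x, hall x⟩ :
      IntermediateField.adjoin (IntermediateField.adjoin k {g}) (Set.range M))⟩
  have hY1 : 1 ≤ Y := by
    obtain ⟨t, ht⟩ := hexg (fun _ => hMalg)
    have h1 : (Set.range fun i : Fin 0 => (i.elim0 : K)) = ∅ := Set.range_eq_empty _
    rw [h1, Set.empty_union] at ht
    exact ht.trans (hYb t)
  refine ⟨hY1, ?_⟩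
  obtain ⟨c₁, hc₁⟩ := hupb hMalg hYb
  refine ⟨c₁, fun t => ?_⟩
  have hfin1 : Module.Finite (IntermediateField.adjoin k {g})
      (Wsp (IntermediateField.adjoin k {g}) (Fin.elim0 : Fin 0 → K) M 0 t) :=
    Pool.Agent.H64.TD.Wsp_finite _ _ _ _
  exact (Submodule.finrank_mono (hM5 t)).trans (hc₁ t)

/-- HKN. -/
theorem pf_HKN (hADS : T_ADS) (hTRD : T_TRD) (hFGU : T_FGU) (hEXG : T_EXG) (hDLG : T_DLG)
    (hUPB : T_UPB) (hMLT : T_MLT) (hSPL : T_SPL) (hNM8 : T_NM8) (hKNC : T_KNC) : T_HKN := by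
  classical
  intro e a b i n₁ l₁ Q W R K _ _ _ _ _ _ _ A B g hinj htr htop hi hn₁ hl₁ hQ hW
  have hfac : (0 : ℝ) ≤ ((e + 1).factorial * 2 ^ (e + 1) : ℝ) *
      (∑ j ∈ Finset.range (e + 1), (n₁ : ℝ) ^ j * l₁ ^ (e - j) * W j) := by positivity
  have hfirst : ∀ (K' : IntermediateField ℚ Qb) (F : HFam K') (m : ℕ)
      (ev : Fin m → (R →ₐ[Qb] Qb)), (0 : ℝ) ≤ ((e + 1).factorial * 2 ^ (e + 1) : ℝ) *
        (∑ j ∈ Finset.range (e + 1), (n₁ : ℝ) ^ j * l₁ ^ (e - j) * W j) *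
        (n₁ * ∑ j, hn F (fun i => ev j (A i)) + l₁ * ∑ j, hn F (fun i => ev j (B i))) := by
    intro K' F m ev
    refine mul_nonneg hfac (add_nonneg ?_ ?_)
    · exact mul_nonneg (Nat.cast_nonneg _)
        (Finset.sum_nonneg fun j _ => Pool.Agent.H4.TX.hn_nonneg F _)
    · exact mul_nonneg (Nat.cast_nonneg _)
        (Finset.sum_nonneg fun j _ => Pool.Agent.H4.TX.hn_nonneg F _)
  by_cases halg : IsAlgebraic Qb (algebraMap R K g)
  · -- the function is constant
    obtain ⟨c₀, hc₀⟩ := alg_range halg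
    have hg : g = algebraMap Qb R c₀ := by
      apply hinj
      rw [← hc₀, ← IsScalarTower.algebraMap_apply]
    refine ⟨1, one_ne_zero, fun K' F => ?_⟩
    refine ⟨(Q * n₁ ^ i * l₁ ^ (e + 1 - i) : ℝ) * hn F ![c₀], fun m ev _ _ => ?_⟩
    have h1 : ∀ j, hn F ![ev j g] = hn F ![c₀] := by
      intro j
      rw [hg, AlgHom.commutes]
      rfl
    rw [Finset.sum_congr rfl fun j _ => h1 j, Finset.sum_const, Finset.card_univ,
      Fintype.card_fin, nsmul_eq_mul]
    have h2 := hfirst K' F m ev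
    have h3 : (Q * n₁ ^ i * l₁ ^ (e + 1 - i) : ℝ) * (m * hn F ![c₀]) =
        m * ((Q * n₁ ^ i * l₁ ^ (e + 1 - i) : ℝ) * hn F ![c₀]) := by ring
    rw [h3]
    linarith only [h2]
  by_cases hQ0 : Q = 0
  · refine ⟨1, one_ne_zero, fun K' F => ⟨0, fun m ev _ _ => ?_⟩⟩
    have h2 := hfirst K' F m ev
    rw [hQ0]
    simp only [Nat.cast_zero, zero_mul, mul_zero, add_zero]
    exact h2
  have hQ1 : 1 ≤ Q := Nat.one_le_iff_ne_zero.2 hQ0
  have htg : Transcendental Qb (algebraMap R K g) := halg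
  have htgR : Transcendental Qb g := (transcendental_algebraMap_iff hinj).1 htg
  obtain ⟨hY1, c₁, hc₁⟩ := core hADS hTRD hFGU hEXG hUPB hMLT hSPL Qb K e a b n₁ l₁ W
    (fun i => algebraMap R K (A i)) (fun i => algebraMap R K (B i)) (algebraMap R K g)
    htg htr htop hn₁ hl₁ hW
  -- the lower bound
  obtain ⟨s, u, hsu⟩ := hQ
  obtain ⟨n₂, hn₂⟩ := hDLG i (e + 1 - i) a b Qb Qb K
    (fun i => algebraMap R K (A i)) (fun i => algebraMap R K (B i)) s u
    (by rw [htr]; congr 1; omega) htop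
  obtain ⟨t, n, l, J, ht, hn, hl, hJ, hfin⟩ := hNM8 e i Q
    (∑ j ∈ Finset.range (e + 1), e.choose j * n₁ ^ j * l₁ ^ (e - j) * W j) n₁ l₁ n₂ c₁ hi hQ1 hY1 hn₁ hl₁
  -- the section
  have hfinW : Module.Finite Qb (Wsp Qb A B (n + n₂) (l + n₂)) :=
    Pool.Agent.H64.TD.Wsp_finite A B _ _
  obtain ⟨S, S', hS'0, hSS, hSW⟩ := Pool.Agent.H55.TD.pf_AXF Qb R K
    (Wsp Qb A B (n + n₂) (l + n₂)) g J
    ((∑ j ∈ Finset.range (e + 1), e.choose j * n₁ ^ j * l₁ ^ (e - j) * W j) * (t + c₁) ^ e) hinj htgR hfinW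
    (by
      rw [Pool.Agent.H64.TD.span_Wsp, hn, hl]
      exact hc₁ t)
    (by
      rw [Pool.Agent.H64.TD.finrank_Wsp (K := K) A B hinj]
      exact lt_of_lt_of_le hJ ((Nat.mul_le_mul_right _ hsu).trans (hn₂ n l)))
  obtain ⟨β, hβ, hβ2⟩ := hKNC a b (n + n₂) (l + n₂) J R A B g S S' hS'0 hSS hSW
  refine ⟨β, hβ, fun K' F => ?_⟩
  obtain ⟨c', hc'⟩ := hβ2 K' F
  refine ⟨2 * (e + 1).factorial *
    ((∑ j ∈ Finset.range (e + 1), e.choose j * n₁ ^ j * l₁ ^ (e - j) * W j : ℕ) : ℝ) * c' / t,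
     fun m ev hev hev2 => ?_⟩
  have h1 := hc' m ev hev hev2
  rw [hn, hl] at h1
  exact num_fin e i n₁ l₁ Q t J _ W _ _ _ c' m ht
    (Finset.sum_nonneg fun j _ => Pool.Agent.H4.TX.hn_nonneg F _)
    (Finset.sum_nonneg fun j _ => Pool.Agent.H4.TX.hn_nonneg F _)
    (Finset.sum_nonneg fun j _ => Pool.Agent.H4.TX.hn_nonneg F _) rfl hfin h1

end Pool.Agent.H48.EDM
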